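import Mathlib
import Pool.Agent.H27.MetDim3

set_option autoImplicit false

namespace Pool.Agent.Results.MP_ca4ce9_co.Mixed

open H27.MetDim

theorem result (V : Type) [Fintype V] [DecidableEq V] (G : SimpleGraph V) [DecidableRel G.Adj]
    (hc : G.Connected) (h2 : ∀ v, 2 ≤ G.degree v) (h3 : ∃ v, 3 ≤ G.degree v) :
    ∃ S : Finset V,
      (S.card : ℤ) ≤ 2 * ((G.edgeFinset.card : ℤ) - (Fintype.card V : ℤ) + 1) ∧
      (∀ u v : V, u ≠ v → ∃ s ∈ S, G.dist s u ≠ G.dist s v) ∧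
      (∀ a b c d : V, G.Adj a b → G.Adj c d → s(a, b) ≠ s(c, d) →
        ∃ s ∈ S, min (G.dist s a) (G.dist s b) ≠ min (G.dist s c) (G.dist s d)) ∧
      ∀ v a b : V, G.Adj a b → ∃ s ∈ S, G.dist s v ≠ min (G.dist s a) (G.dist s b) := by
  obtain ⟨r, S, h, k1, k2, k3⟩ := main hc h2 h3
  have e := Finset.card_insert_le r S
  refine ⟨insert r S, by omega, fun u v huv => ?_, fun a b c d h1 h2 h3 => ?_,
    fun v a b hab => ?_⟩
  · obtain ⟨s, a1, a2⟩ := vert hc r k1 k2 u v huv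
    exact ⟨s, Finset.mem_insert_of_mem a1, a2⟩
  · obtain ⟨s, a1, a2⟩ := edge hc r k1 k2 k3 a b c d h1 h2 h3
    exact ⟨s, Finset.mem_insert_of_mem a1, a2⟩
  · have g : ∀ u, Good G r (insert r (S : Set V)) u := fun u =>
      (exists_sink hc r u).imp fun s hs => ⟨Or.inr (k1 s hs.1), hs.2⟩
    rcases le_total (G.dist r a) (G.dist r b) with h | h
    · simpa using mixed hc (Or.inl rfl) (k3.insert r) v hab h (g b)
    · simpa [min_comm (G.dist _ b)] using mixed hc (Or.inl rfl) (k3.insert r) v hab.symm h (g a)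

end Pool.Agent.Results.MP_ca4ce9_co.Mixed
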